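import Pool.Graph.R_seed8.Helper473.Malykhin

/-!
# MP_37ca1f_al: the structure of irresolvable topological groups

A topological group (of any cardinality, no separation axiom) is irresolvable, i.e. cannot be partitioned
into two dense subsets, if and only if it has a countable open subgroup of exponent 2 that is irresolvable;
irresolvable groups are Hausdorff and only finitely many free ultrafilters converge to their identity. The
last assertion is the positive answer to Malykhin's question Q1.
-/

set_option autoImplicit false

open Set Filter Topology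

namespace Pool.Agent.Results.MP_37ca1f_al.IrresolvableStructure

universe u

/-- `G` can be partitioned into two dense subsets. -/
def Resolvable (G : Type u) [TopologicalSpace G] : Prop := ∃ A : Set G, Dense A ∧ Dense Aᶜ

/-- The free ultrafilters on `G` that converge to the identity. -/
def FreeConvergent (G : Type u) [Group G] [TopologicalSpace G] : Set (Ultrafilter G) :=
  {p | (p : Filter G) ≤ Filter.cofinite ∧ (p : Filter G) ≤ nhds 1}

theorem result (G : Type u) [Group G] [TopologicalSpace G] [IsTopologicalGroup G] :
    -- Malykhin's question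
    ((FreeConvergent G).Infinite → Resolvable G) ∧
    -- the structure of irresolvable groups
    (¬ Resolvable G ↔ ∃ H : Subgroup G, IsOpen (H : Set G) ∧ Countable H ∧ (∀ x ∈ H, x * x = 1) ∧
      ¬ Resolvable H) ∧
    (¬ Resolvable G → T2Space G ∧ (FreeConvergent G).Finite) ∧
    -- groups without infinite subgroups of exponent 2
    ((∀ H : Subgroup G, (∀ x ∈ H, x * x = 1) → Finite H) → ¬ DiscreteTopology G → Resolvable G) := by
  have h1 : (FreeConvergent G).Infinite → Resolvable G := by
    intro hinf
    apply H473.res_of_good (H473.good_all G)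
    refine hinf.mono ?_
    rintro p ⟨h1, h2⟩
    exact ⟨h1, h2, Filter.univ_mem⟩
  have hst : ¬ Resolvable G → ∃ H : Subgroup G, IsOpen (H : Set G) ∧ Countable H ∧ (∀ x ∈ H, x * x = 1) ∧
      ¬ Resolvable H := by
    intro hG
    obtain ⟨U, hU, hUc⟩ := H473.good_all G hG
    have hH0c : Countable (Subgroup.closure U) := H473.closure_countable hUc
    have hH0o : IsOpen ((Subgroup.closure U : Subgroup G) : Set G) :=
      Subgroup.isOpen_of_mem_nhds _ (mem_of_superset hU Subgroup.subset_closure)
    have hres0 : H473.NoRes (Subgroup.closure U) := fun h => hG (H473.res_of_subgroup _ h)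
    obtain ⟨K, hK, hK2⟩ := H473.open_boolean hres0
    refine ⟨K.map (Subgroup.closure U).subtype, ?_, ?_, ?_, ?_⟩
    · have h2 := hH0o.isOpenMap_subtype_val _ hK
      have h3 : ((K.map (Subgroup.closure U).subtype : Subgroup G) : Set G) = Subtype.val '' (K : Set (Subgroup.closure U)) := rfl
      rw [h3]
      exact h2
    · have h2 : ((K.map (Subgroup.closure U).subtype : Subgroup G) : Set G) ⊆
          ((Subgroup.closure U : Subgroup G) : Set G) := by
        rintro _ ⟨k, _, rfl⟩
        exact k.2
      exact (Set.countable_coe_iff.1 hH0c).mono h2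
    · rintro _ ⟨k, hk, rfl⟩
      exact congrArg Subtype.val (hK2 k hk)
    · exact fun h => hG (H473.res_of_subgroup _ h)
  refine ⟨h1, ⟨hst, ?_⟩, ?_, ?_⟩
  · rintro ⟨H, hHo, -, -, hH⟩ ⟨A, hA, hA'⟩
    apply hH
    refine ⟨Subtype.val ⁻¹' A, hA.preimage hHo.isOpenMap_subtype_val, ?_⟩
    rw [← Set.preimage_compl]
    exact hA'.preimage hHo.isOpenMap_subtype_val
  · intro hG
    refine ⟨H473.T2_of_NoRes hG, ?_⟩
    by_contra h
    exact hG (h1 h)
  · intro hfin hnd
    by_contra hG
    apply hnd
    have hT2 : T2Space G := H473.T2_of_NoRes hG
    obtain ⟨H, hHo, -, hH2, -⟩ := hst hG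
    have hHf : Finite H := hfin H hH2
    have hHd : DiscreteTopology H := inferInstance
    apply discreteTopology_of_isOpen_singleton_one
    have h2 : IsOpen ({1} : Set H) := isOpen_discrete _
    have h3 := hHo.isOpenMap_subtype_val _ h2
    rw [Set.image_singleton] at h3
    exact h3

end Pool.Agent.Results.MP_37ca1f_al.IrresolvableStructure
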